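import Pool.Agent.L0h42.CL.Stm

/-! Project CL, module MA (helper61): outside the major arcs the Weyl sums are small on average. -/

set_option autoImplicit false
set_option linter.all false

namespace Pool.Agent.L0h61.CL

open Finset
open Pool.Agent.L0h42.CL
open Pool.Agent.L0h42.TB
open Pool.Agent.H373R2.T7
open Pool.Agent.H807R2.Dav

lemma sum_inv (N : ℕ) : ∑ n ∈ Icc 1 N, (1 : ℝ) / n ≤ 1 + Real.log N := by
  have h1 := harmonic_le_one_add_log N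
  rw [harmonic_eq_sum_Icc] at h1
  push_cast at h1
  simpa [one_div] using h1

lemma sum_inv_mult (N s : ℕ) (hs : 1 ≤ s) :
    ∑ D ∈ (Icc 1 N).filter (fun D => s ∣ D), (1 : ℝ) / D ≤ 1 / s * (1 + Real.log N) := by
  have hs0 : (0 : ℝ) < s := by exact_mod_cast hs
  have hsub : (Icc 1 N).filter (fun D => s ∣ D) ⊆ (Icc 1 N).image (fun m => s * m) := by
    intro D hD
    rw [mem_filter, mem_Icc] at hD
    obtain ⟨⟨h1, h2⟩, m, rfl⟩ := hD
    rw [mem_image]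
    have hm : 1 ≤ m := Nat.pos_of_ne_zero fun h => by rw [h] at h1; simp at h1
    exact ⟨m, mem_Icc.2 ⟨hm, (Nat.le_mul_of_pos_left m hs).trans h2⟩, rfl⟩
  calc ∑ D ∈ (Icc 1 N).filter (fun D => s ∣ D), (1 : ℝ) / D
      ≤ ∑ D ∈ (Icc 1 N).image (fun m => s * m), (1 : ℝ) / D :=
        sum_le_sum_of_subset_of_nonneg hsub fun i _ _ => by positivity
    _ = ∑ m ∈ Icc 1 N, (1 : ℝ) / ((s * m : ℕ) : ℝ) := by
        rw [sum_image]
        intro x _ y _ h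
        exact Nat.eq_of_mul_eq_mul_left hs h
    _ = 1 / s * ∑ m ∈ Icc 1 N, (1 : ℝ) / m := by
        rw [mul_sum]
        refine sum_congr rfl fun m _ => ?_
        push_cast
        rw [one_div, one_div, one_div, mul_inv]
    _ ≤ _ := mul_le_mul_of_nonneg_left (sum_inv N) (by positivity)

/-- the radical -/
def rad (w : ℕ) : ℕ := ∏ p ∈ w.primeFactors, p

lemma rad_facts {w D : ℕ} (hD : Squarefree D) (hw : w ∣ D ^ 2) : rad w ∣ D ∧ w ≤ rad w ^ 2 := by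
  have hD0 : D ≠ 0 := hD.ne_zero
  have hw0 : w ≠ 0 := fun h => by
    rw [h, zero_dvd_iff] at hw
    exact hD0 (pow_eq_zero_iff (two_ne_zero) |>.1 hw)
  constructor
  · refine Finset.prod_primes_dvd _ (fun p hp => (Nat.prime_of_mem_primeFactors hp).prime)
      fun p hp => ?_
    exact (Nat.prime_of_mem_primeFactors hp).dvd_of_dvd_pow
      ((Nat.dvd_of_mem_primeFactors hp).trans hw)
  · have hdvd : w ∣ rad w ^ 2 := by
      conv_lhs => rw [← Nat.factorization_prod_pow_eq_self hw0]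
      rw [Nat.prod_factorization_eq_prod_primeFactors, rad, ← Finset.prod_pow]
      refine Finset.prod_dvd_prod_of_dvd _ _ fun p hp => pow_dvd_pow p ?_
      have h1 := (Nat.factorization_le_iff_dvd hw0 (pow_ne_zero 2 hD0)).2 hw p
      rw [Nat.factorization_pow, Finsupp.smul_apply, smul_eq_mul] at h1
      have h2 := hD.natFactorization_le_one p
      omega
    refine Nat.le_of_dvd ?_ hdvd
    have : 0 < rad w := Finset.prod_pos fun p hp => (Nat.prime_of_mem_primeFactors hp).pos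
    positivity

lemma one_le_rad (w : ℕ) : 1 ≤ rad w :=
  Finset.prod_pos fun p hp => (Nat.prime_of_mem_primeFactors hp).pos

lemma mn_le (V : ℕ) (x : ℝ) : mn V x ≤ V := by
  unfold mn
  exact div_le_self (Nat.cast_nonneg V) (le_max_left _ _)

lemma mn_nonneg (V : ℕ) (x : ℝ) : 0 ≤ mn V x := by
  unfold mn
  positivity

/-- the trivial bound -/
lemma WD_triv (a0 : ℤ) (T D : ℕ) (α : ℝ) :
    WD a0 T D α ≤ 3 * (((T / D + 1 : ℕ) : ℝ)) ^ 2 := by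
  unfold WD
  have hV : (1 : ℝ) ≤ ((T / D + 1 : ℕ) : ℝ) := by exact_mod_cast Nat.le_add_left 1 _
  have h1 : ∑ j ∈ Icc 1 (T / D + 1), mn (T / D + 1) (2 * a0 * (D : ℝ) ^ 2 * j * α) ≤
      ((T / D + 1 : ℕ) : ℝ) * ((T / D + 1 : ℕ) : ℝ) := by
    refine (sum_le_card_nsmul _ _ _ fun j _ => mn_le _ _).trans ?_
    rw [Nat.card_Icc, nsmul_eq_mul]
    simp
  nlinarith

/-- a divisor of the second factor -/
lemma div_gcd_dvd {q0 m n : ℕ} (hq0 : 1 ≤ q0) (h : q0 ∣ m * n) : q0 / Nat.gcd q0 m ∣ n := by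
  have h0 : 0 < Nat.gcd q0 m := Nat.gcd_pos_of_pos_left _ hq0
  have hc := Nat.coprime_div_gcd_div_gcd h0
  refine hc.dvd_of_dvd_mul_left ?_
  obtain ⟨g1, hg1⟩ := Nat.gcd_dvd_left q0 m
  obtain ⟨g2, hg2⟩ := Nat.gcd_dvd_right q0 m
  have e1 : q0 / Nat.gcd q0 m = g1 := Nat.div_eq_of_eq_mul_right h0 hg1
  have e2 : m / Nat.gcd q0 m = g2 := Nat.div_eq_of_eq_mul_right h0 hg2
  rw [e1, e2]
  have h2 : Nat.gcd q0 m * g1 ∣ Nat.gcd q0 m * (g2 * n) := by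
    rw [← hg1, ← mul_assoc, ← hg2]
    exact h
  exact Nat.dvd_of_mul_dvd_mul_left h0 h2

lemma nd_le (x : ℝ) (n : ℤ) : nd x ≤ |x - n| := round_le x n

/-- the sum over the bad moduli -/
lemma bad_sum (a N T B' K' M0 E : ℕ) (α ℓ Y : ℝ) (bad : Finset ℕ) (ha : 1 ≤ a) (hℓ : 1 ≤ ℓ)
    (hℓN : ℓ = Real.log N) (hY : 1 ≤ Y) (hN : 1 ≤ N) (h2a : 2 * (a : ℝ) ≤ ℓ) (hT : (N : ℝ) ≤ (T : ℝ) ^ 2 * ℓ ^ K')
    (hsep : 8 * (a : ℝ) ^ 2 * ℓ ^ (4 * M0) * Y ^ 2 < (T : ℝ) ^ 2)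
    (hB' : B' = M0 + 1 + 2 * E)
    (hα : ∀ q : ℕ, 1 ≤ q → (q : ℝ) ≤ ℓ ^ (B' + 2 * M0 + K') →
      ℓ ^ (B' + 2 * M0 + K') / N < nd (q * α))
    (hbad : ∀ D ∈ bad, D ∈ QQ N ∧ (D : ℝ) ^ 2 ≤ Y ∧ ∃ q : ℕ, 1 ≤ q ∧ (q : ℝ) ≤ ℓ ^ M0 ∧
      nd (q * (2 * a * (D : ℝ) ^ 2 * α)) ≤ (ℓ ^ M0) ^ 2 * (D : ℝ) ^ 2 / (T : ℝ) ^ 2) :
    ∑ D ∈ bad, (1 : ℝ) / D ≤ ℓ ^ M0 * ((1 / ℓ ^ E) * (1 + Real.log N)) := by
  have hℓ0 : 0 < ℓ := by linarith
  have hlogN : 0 ≤ Real.log N := by rw [← hℓN]; exact hℓ0.le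
  have hN0 : (0 : ℝ) < N := by exact_mod_cast hN
  have ha0 : (1 : ℝ) ≤ a := by exact_mod_cast ha
  have hT0 : (0 : ℝ) < (T : ℝ) ^ 2 := lt_of_le_of_lt (by positivity) hsep
  rcases bad.eq_empty_or_nonempty with rfl | ⟨Ds, hDs⟩
  · rw [sum_empty]
    positivity
  choose! hQ hDY q hq1 hqL hnd using hbad
  -- the fractions
  set m : ℕ → ℕ := fun D => 2 * a * D ^ 2 * q D with hm
  set b : ℕ → ℤ := fun D => round ((q D : ℝ) * (2 * a * (D : ℝ) ^ 2 * α)) with hb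
  have hmr : ∀ D, (m D : ℝ) = 2 * a * (D : ℝ) ^ 2 * q D := fun D => by simp [hm]
  have hD1 : ∀ D ∈ bad, (1 : ℝ) ≤ D := fun D hD => by
    exact_mod_cast (mem_QQ.1 (hQ D hD)).1
  have hq1' : ∀ D ∈ bad, (1 : ℝ) ≤ q D := fun D hD => by exact_mod_cast hq1 D hD
  have hm0 : ∀ D ∈ bad, (0 : ℝ) < m D := fun D hD => by
    rw [hmr]
    have := hD1 D hD
    have := hq1' D hD
    positivity
  have hclose : ∀ D ∈ bad, |α - (b D : ℝ) / m D| ≤ ℓ ^ (2 * M0) / (T : ℝ) ^ 2 := by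
    intro D hD
    have h1 := hnd D hD
    have e1 : nd (q D * (2 * a * (D : ℝ) ^ 2 * α)) = |m D * α - b D| := by
      unfold nd
      rw [hmr, hb]
      congr 1
      ring_nf
    rw [e1] at h1
    have e2 : α - (b D : ℝ) / m D = (m D * α - b D) / m D := by
      field_simp [(hm0 D hD).ne']
    rw [e2, abs_div, abs_of_pos (hm0 D hD), div_le_div_iff₀ (hm0 D hD) hT0]
    have h2 : |m D * α - b D| * (T : ℝ) ^ 2 ≤ (ℓ ^ M0) ^ 2 * (D : ℝ) ^ 2 := by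
      rwa [le_div_iff₀ hT0] at h1
    have h3 : (D : ℝ) ^ 2 ≤ m D := by
      rw [hmr]
      have h4 := hq1' D hD
      have h5 : (0 : ℝ) ≤ (D : ℝ) ^ 2 := by positivity
      nlinarith [mul_nonneg h5 (by linarith : (0 : ℝ) ≤ a - 1), mul_nonneg (mul_nonneg h5 (by linarith : (0 : ℝ) ≤ a)) (by linarith : (0 : ℝ) ≤ (q D : ℝ) - 1)]
    calc |m D * α - b D| * (T : ℝ) ^ 2 ≤ (ℓ ^ M0) ^ 2 * (D : ℝ) ^ 2 := h2
      _ ≤ (ℓ ^ M0) ^ 2 * m D := mul_le_mul_of_nonneg_left h3 (by positivity)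
      _ = _ := by rw [← pow_mul]; ring_nf
  have hmle : ∀ D ∈ bad, (m D : ℝ) ≤ 2 * a * Y * ℓ ^ M0 := by
    intro D hD
    rw [hmr]
    have h1 := hDY D hD
    have h2 := hqL D hD
    gcongr
  have heq : ∀ D ∈ bad, ((b D : ℤ) : ℚ) / ((m D : ℤ) : ℚ) = ((b Ds : ℤ) : ℚ) / ((m Ds : ℤ) : ℚ) := by
    intro D hD
    have hmq : ((m D : ℤ) : ℚ) ≠ 0 := by
      have := hm0 D hD
      have h2 : 0 < m D := by exact_mod_cast this
      exact_mod_cast h2.ne'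
    have hmq' : ((m Ds : ℤ) : ℚ) ≠ 0 := by
      have := hm0 Ds hDs
      have h2 : 0 < m Ds := by exact_mod_cast this
      exact_mod_cast h2.ne'
    rw [div_eq_div_iff hmq hmq']
    by_contra hne
    have hne' : b D * (m Ds : ℤ) - b Ds * (m D : ℤ) ≠ 0 := by
      intro h
      apply hne
      have : b D * (m Ds : ℤ) = b Ds * (m D : ℤ) := by linarith
      exact_mod_cast this
    have h1 : (1 : ℝ) ≤ |(b D : ℝ) * m Ds - b Ds * m D| := by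
      have := Int.one_le_abs hne'
      exact_mod_cast this
    have e1 : (b D : ℝ) * m Ds - b Ds * m D =
        ((α - (b Ds : ℝ) / m Ds) - (α - (b D : ℝ) / m D)) * (m D * m Ds) := by
      field_simp [(hm0 D hD).ne', (hm0 Ds hDs).ne']
      ring
    have h2 : |(α - (b Ds : ℝ) / m Ds) - (α - (b D : ℝ) / m D)| ≤
        2 * (ℓ ^ (2 * M0) / (T : ℝ) ^ 2) := by
      refine (abs_sub _ _).trans ?_
      have := hclose D hD
      have := hclose Ds hDs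
      linarith
    have h3 : (m D : ℝ) * m Ds ≤ (2 * a * Y * ℓ ^ M0) * (2 * a * Y * ℓ ^ M0) :=
      mul_le_mul (hmle D hD) (hmle Ds hDs) (hm0 Ds hDs).le (by positivity)
    rw [e1, abs_mul, abs_of_pos (mul_pos (hm0 D hD) (hm0 Ds hDs))] at h1
    have h4 : (1 : ℝ) ≤ 2 * (ℓ ^ (2 * M0) / (T : ℝ) ^ 2) * ((2 * a * Y * ℓ ^ M0) * (2 * a * Y * ℓ ^ M0)) :=
      h1.trans (mul_le_mul h2 h3 (mul_pos (hm0 D hD) (hm0 Ds hDs)).le (by positivity))
    have e2 : 2 * (ℓ ^ (2 * M0) / (T : ℝ) ^ 2) * ((2 * a * Y * ℓ ^ M0) * (2 * a * Y * ℓ ^ M0)) =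
        (8 * (a : ℝ) ^ 2 * ℓ ^ (4 * M0) * Y ^ 2) / (T : ℝ) ^ 2 := by
      have : ℓ ^ (4 * M0) = ℓ ^ (2 * M0) * (ℓ ^ M0 * ℓ ^ M0) := by
        rw [← pow_add, ← pow_add]; congr 1; ring
      rw [this]
      ring
    rw [e2, le_div_iff₀ hT0, one_mul] at h4
    exact absurd h4 (not_le.2 hsep)
  set ρ : ℚ := ((b Ds : ℤ) : ℚ) / ((m Ds : ℤ) : ℚ) with hρ
  set q0 := ρ.den with hq0
  have hq0pos : 1 ≤ q0 := ρ.den_pos
  have hq0R : (0 : ℝ) < q0 := by exact_mod_cast hq0pos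
  have hdvd : ∀ D ∈ bad, q0 ∣ m D := by
    intro D hD
    have h1 := Rat.den_dvd (b D) (m D : ℤ)
    rw [Rat.divInt_eq_div, heq D hD] at h1
    exact_mod_cast h1
  -- the common denominator is large
  have hq0big : ℓ ^ B' ≤ (q0 : ℝ) := by
    by_cases hle : (q0 : ℝ) ≤ ℓ ^ (B' + 2 * M0 + K')
    · have h1 := hα q0 hq0pos hle
      have h2 : nd (q0 * α) ≤ q0 * (ℓ ^ (2 * M0) / (T : ℝ) ^ 2) := by
        refine (nd_le _ ρ.num).trans ?_
        have e1 : (b Ds : ℝ) / m Ds = (ρ.num : ℝ) / q0 := by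
          have h3 : (ρ : ℝ) = (b Ds : ℝ) / m Ds := by
            rw [hρ]
            push_cast
            rfl
          rw [← h3]
          exact_mod_cast (Rat.num_div_den ρ).symm
        have e2 : (q0 : ℝ) * α - ρ.num = q0 * (α - (b Ds : ℝ) / m Ds) := by
          rw [e1]
          field_simp
        rw [e2, abs_mul, abs_of_pos hq0R]
        exact mul_le_mul_of_nonneg_left (hclose Ds hDs) hq0R.le
      have h3 : ℓ ^ (2 * M0) / (T : ℝ) ^ 2 ≤ ℓ ^ (2 * M0) * ℓ ^ K' / N := by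
        rw [div_le_div_iff₀ hT0 hN0]
        have := mul_le_mul_of_nonneg_left hT (by positivity : (0 : ℝ) ≤ ℓ ^ (2 * M0))
        linarith
      have h4 : ℓ ^ (B' + 2 * M0 + K') / N < q0 * (ℓ ^ (2 * M0) * ℓ ^ K' / N) :=
        h1.trans_le (h2.trans (mul_le_mul_of_nonneg_left h3 hq0R.le))
      rw [← mul_div_assoc, div_lt_div_iff_of_pos_right hN0, pow_add, pow_add, mul_assoc] at h4
      exact le_of_mul_le_mul_right h4.le (by positivity)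
    · push Not at hle
      exact (pow_le_pow_right₀ hℓ (by omega)).trans hle.le
  -- the multiples
  set s : ℕ → ℕ := fun r => rad (q0 / Nat.gcd q0 (2 * a * r)) with hs
  have hsD : ∀ D ∈ bad, s (q D) ∣ D ∧ ℓ ^ E ≤ (s (q D) : ℝ) := by
    intro D hD
    have h1 : q0 ∣ (2 * a * q D) * D ^ 2 := by
      have := hdvd D hD
      have e : m D = (2 * a * q D) * D ^ 2 := by simp only [hm]; ring
      rwa [e] at this
    have h2 := div_gcd_dvd hq0pos h1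
    obtain ⟨h3, h4⟩ := rad_facts (mem_QQ.1 (hQ D hD)).2.1 h2
    refine ⟨h3, ?_⟩
    have h5 : (q0 : ℝ) ≤ ((q0 / Nat.gcd q0 (2 * a * q D) : ℕ) : ℝ) * (2 * a * q D) := by
      have h6 : q0 / Nat.gcd q0 (2 * a * q D) * Nat.gcd q0 (2 * a * q D) = q0 :=
        Nat.div_mul_cancel (Nat.gcd_dvd_left _ _)
      have h7 : Nat.gcd q0 (2 * a * q D) ≤ 2 * a * q D :=
        Nat.gcd_le_right _ (by have := hq1 D hD; positivity)
      have h8 : q0 ≤ q0 / Nat.gcd q0 (2 * a * q D) * (2 * a * q D) :=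
        h6.symm.le.trans (Nat.mul_le_mul_left _ h7)
      exact_mod_cast h8
    set wr : ℝ := ((q0 / Nat.gcd q0 (2 * a * q D) : ℕ) : ℝ) with hwr
    have hwr0 : 0 ≤ wr := Nat.cast_nonneg _
    have h9 : ℓ ^ (2 * E) ≤ wr := by
      have h10 : ℓ ^ B' ≤ wr * ℓ ^ (M0 + 1) := by
        calc ℓ ^ B' ≤ (q0 : ℝ) := hq0big
          _ ≤ wr * (2 * a * q D) := h5
          _ ≤ wr * (ℓ * ℓ ^ M0) := by
              refine mul_le_mul_of_nonneg_left ?_ hwr0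
              exact mul_le_mul h2a (hqL D hD) (Nat.cast_nonneg _) hℓ0.le
          _ = _ := by rw [pow_succ]; ring
      have e : ℓ ^ B' = ℓ ^ (2 * E) * ℓ ^ (M0 + 1) := by rw [← pow_add, hB']; congr 1; ring
      rw [e] at h10
      exact le_of_mul_le_mul_right h10 (by positivity)
    have h11 : (ℓ ^ E) ^ 2 ≤ ((s (q D) : ℝ)) ^ 2 := by
      rw [← pow_mul, mul_comm E 2]
      refine h9.trans ?_
      have h12 : ((q0 / Nat.gcd q0 (2 * a * q D) : ℕ) : ℝ) ≤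
          ((rad (q0 / Nat.gcd q0 (2 * a * q D)) : ℕ) : ℝ) ^ 2 := by exact_mod_cast h4
      exact h12
    exact le_of_sq_le_sq h11 (Nat.cast_nonneg _)
  -- the sum
  have hmaps : ∀ D ∈ bad, q D ∈ Icc 1 ⌊ℓ ^ M0⌋₊ := fun D hD =>
    mem_Icc.2 ⟨hq1 D hD, Nat.le_floor (hqL D hD)⟩
  rw [← sum_fiberwise_of_maps_to hmaps]
  have hfib : ∀ r ∈ Icc 1 ⌊ℓ ^ M0⌋₊, ∑ D ∈ bad.filter (fun D => q D = r), (1 : ℝ) / D ≤
      (1 / ℓ ^ E) * (1 + Real.log N) := by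
    intro r _
    rcases (bad.filter (fun D => q D = r)).eq_empty_or_nonempty with h0 | ⟨D0, hD0⟩
    · rw [h0, sum_empty]
      positivity
    · rw [mem_filter] at hD0
      obtain ⟨h1, h2⟩ := hsD D0 hD0.1
      rw [hD0.2] at h2
      have hsub : bad.filter (fun D => q D = r) ⊆ (Icc 1 N).filter (fun D => s r ∣ D) := by
        intro D hD
        rw [mem_filter] at hD
        rw [mem_filter, mem_Icc]
        have h3 := mem_QQ.1 (hQ D hD.1)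
        refine ⟨⟨h3.1, ?_⟩, ?_⟩
        · exact (Nat.le_self_pow (by norm_num) D).trans h3.2.2
        · have := (hsD D hD.1).1
          rwa [hD.2] at this
      calc _ ≤ ∑ D ∈ (Icc 1 N).filter (fun D => s r ∣ D), (1 : ℝ) / D :=
            sum_le_sum_of_subset_of_nonneg hsub fun i _ _ => by positivity
        _ ≤ 1 / s r * (1 + Real.log N) := sum_inv_mult N (s r) (one_le_rad _)
        _ ≤ _ := by
            refine mul_le_mul_of_nonneg_right ?_ (by linarith)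
            exact one_div_le_one_div_of_le (by positivity) h2
  refine (sum_le_card_nsmul _ _ _ hfib).trans ?_
  rw [Nat.card_Icc, nsmul_eq_mul]
  refine mul_le_mul_of_nonneg_right ?_ (by positivity)
  simp only [Nat.add_sub_cancel]
  exact Nat.floor_le (by positivity)

theorem t_MA (hW1 : S_W1) : S_MA := by
  intro a0 ha0 A K'
  obtain ⟨a, rfl⟩ : ∃ a : ℕ, (a : ℤ) = a0 := ⟨a0.toNat, Int.toNat_of_nonneg (by omega)⟩
  have ha : 1 ≤ a := by exact_mod_cast ha0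
  set M0 := A + 4 with hM0
  set E := M0 + A + 2 with hE
  set B' := M0 + 1 + 2 * E with hB'
  set J := 4 * M0 + K' + A + 4 with hJ
  have hev : ∀ᶠ x : ℝ in Filter.atTop, 13000 + 2 * (a : ℝ) ≤ Real.log x ∧
      Real.log x ^ J ≤ x ^ (1 / 10 : ℝ) ∧ 1 ≤ x := by
    have h1 : ∀ᶠ x : ℝ in Filter.atTop, 13000 + 2 * (a : ℝ) ≤ Real.log x :=
      Real.tendsto_log_atTop.eventually_ge_atTop _
    have h2 : ∀ᶠ x : ℝ in Filter.atTop, ‖Real.log x ^ J‖ ≤ 1 * ‖x ^ (1 / 10 : ℝ)‖ := by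
      have h3 := isLittleO_log_rpow_rpow_atTop (J : ℝ) (by norm_num : (0 : ℝ) < 1 / 10)
      have h4 := (Asymptotics.isLittleO_iff.1 h3) (by norm_num : (0 : ℝ) < 1)
      filter_upwards [h4] with x hx
      rwa [Real.rpow_natCast] at hx
    filter_upwards [h1, h2, Filter.eventually_ge_atTop (1 : ℝ)] with x hx1 hx2 hx3
    refine ⟨hx1, ?_, hx3⟩
    rw [one_mul, Real.norm_eq_abs, Real.norm_eq_abs, abs_of_nonneg (by positivity :
      (0 : ℝ) ≤ x ^ (1 / 10 : ℝ))] at hx2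
    exact (le_abs_self _).trans hx2
  obtain ⟨x0, hx0⟩ := Filter.eventually_atTop.1 hev
  refine ⟨B' + 2 * M0 + K', ⌈x0⌉₊, fun N hN T hT1 hT2 α hα => ?_⟩
  obtain ⟨hℓ1, hℓJ, hN1⟩ := hx0 N ((Nat.le_ceil x0).trans (by exact_mod_cast hN))
  set ℓ := Real.log N with hℓ
  set Y := (N : ℝ) ^ (1 / 10 : ℝ) with hY
  have ha0' : (1 : ℝ) ≤ a := by exact_mod_cast ha
  have hℓ0 : 13000 ≤ ℓ := by linarith
  have hℓp : (0 : ℝ) < ℓ := by linarith
  have hℓ1' : (1 : ℝ) ≤ ℓ := by linarith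
  have hY1 : 1 ≤ Y := Real.one_le_rpow hN1 (by norm_num)
  have hY10 : Y ^ 10 = N := by
    rw [hY, ← Real.rpow_natCast, ← Real.rpow_mul (by linarith)]
    norm_num
  have hY0 : 0 < Y := by linarith
  have hK'Y : ℓ ^ K' ≤ Y := (pow_le_pow_right₀ hℓ1' (by omega)).trans hℓJ
  have hM4 : ℓ ^ (4 * M0) ≤ Y := (pow_le_pow_right₀ hℓ1' (by omega)).trans hℓJ
  have hT9 : Y ^ 9 ≤ (T : ℝ) ^ 2 := by
    have h1 : Y ^ 9 * Y ≤ (T : ℝ) ^ 2 * Y := by
      calc Y ^ 9 * Y = N := by rw [← hY10]; ring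
        _ ≤ (T : ℝ) ^ 2 * ℓ ^ K' := hT1
        _ ≤ _ := mul_le_mul_of_nonneg_left hK'Y (by positivity)
    exact le_of_mul_le_mul_right h1 hY0
  have hT2' : (T : ℝ) ^ 2 ≤ N := by exact_mod_cast hT2
  have hT5 : (T : ℝ) ≤ Y ^ 5 := by
    refine le_of_sq_le_sq ?_ (by positivity)
    calc (T : ℝ) ^ 2 ≤ N := hT2'
      _ = (Y ^ 5) ^ 2 := by rw [← hY10]; ring
  have hNpos : 1 ≤ N := by exact_mod_cast hN1
  have hYℓ : ℓ ^ (A + 2) ≤ Y := (pow_le_pow_right₀ hℓ1' (by omega)).trans hℓJ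
  -- facts on the moduli
  have hDY : ∀ D ∈ QQ N, (D : ℝ) ^ 2 ≤ Y := by
    intro D hD
    have h1 : ((D : ℝ) ^ 2) ^ 10 ≤ Y ^ 10 := by
      rw [hY10, ← pow_mul]
      exact_mod_cast (mem_QQ.1 hD).2.2
    exact le_of_pow_le_pow_left₀ (by norm_num) hY0.le h1
  have hD1 : ∀ D ∈ QQ N, (1 : ℝ) ≤ D := fun D hD => by exact_mod_cast (mem_QQ.1 hD).1
  have hDT : ∀ D ∈ QQ N, (D : ℝ) ≤ T := by
    intro D hD
    refine le_of_sq_le_sq ?_ (Nat.cast_nonneg _)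
    calc (D : ℝ) ^ 2 ≤ Y := hDY D hD
      _ ≤ Y ^ 9 := le_self_pow₀ hY1 (by norm_num)
      _ ≤ _ := hT9
  have hV1 : ∀ D ∈ QQ N, (T : ℝ) / D ≤ ((T / D + 1 : ℕ) : ℝ) := by
    intro D hD
    have hD0 : (0 : ℝ) < D := by linarith [hD1 D hD]
    rw [div_le_iff₀ hD0]
    have h1 : T < (T / D + 1) * D := by
      have := Nat.lt_div_mul_add (a := T) (b := D) (mem_QQ.1 hD).1
      calc T < T / D * D + D := this
        _ = _ := by ring
    exact_mod_cast h1.le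
  have hV2 : ∀ D ∈ QQ N, ((T / D + 1 : ℕ) : ℝ) ≤ 2 * (T / D) := by
    intro D hD
    have hD0 : (0 : ℝ) < D := by linarith [hD1 D hD]
    have h1 : ((T / D : ℕ) : ℝ) ≤ (T : ℝ) / D := Nat.cast_div_le
    have h2 : (1 : ℝ) ≤ (T : ℝ) / D := by rw [one_le_div hD0]; exact hDT D hD
    push_cast
    linarith
  have hT1' : 2 ≤ T := by
    have h1 : (2 : ℝ) ^ 2 ≤ (T : ℝ) ^ 2 := by
      calc (2 : ℝ) ^ 2 ≤ ℓ := by linarith
        _ ≤ ℓ ^ (A + 2) := le_self_pow₀ hℓ1' (by omega)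
        _ ≤ Y := hYℓ
        _ ≤ Y ^ 9 := le_self_pow₀ hY1 (by norm_num)
        _ ≤ _ := hT9
    have := le_of_sq_le_sq h1 (Nat.cast_nonneg _)
    exact_mod_cast this
  have hlogV : ∀ D ∈ QQ N, Real.log ((T / D + 1 : ℕ) : ℝ) ≤ ℓ := by
    intro D hD
    refine Real.log_le_log (by positivity) ?_
    have h1 : T / D + 1 ≤ N := by
      have h2 : T / D ≤ T := Nat.div_le_self _ _
      have h3 : T + 1 ≤ T ^ 2 := by nlinarith
      omega
    exact_mod_cast h1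
  have hLV : ∀ D ∈ QQ N, (ℓ ^ M0) ^ 2 ≤ ((T / D + 1 : ℕ) : ℝ) := by
    intro D hD
    refine le_trans ?_ (hV1 D hD)
    have hD0 : (0 : ℝ) < D := by linarith [hD1 D hD]
    rw [le_div_iff₀ hD0]
    refine le_of_sq_le_sq ?_ (Nat.cast_nonneg _)
    calc ((ℓ ^ M0) ^ 2 * D) ^ 2 = ℓ ^ (4 * M0) * (D : ℝ) ^ 2 := by ring
      _ ≤ Y * Y := mul_le_mul hM4 (hDY D hD) (by positivity) hY0.le
      _ = Y ^ 2 := by ring
      _ ≤ Y ^ 9 := pow_le_pow_right₀ hY1 (by norm_num)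
      _ ≤ _ := hT9
  -- good and bad moduli
  classical
  set bad : Finset ℕ := (QQ N).filter (fun D : ℕ => ∃ q : ℕ, 1 ≤ q ∧ (q : ℝ) ≤ ℓ ^ M0 ∧
      nd (q * (2 * a * (D : ℝ) ^ 2 * α)) ≤ (ℓ ^ M0) ^ 2 * (D : ℝ) ^ 2 / (T : ℝ) ^ 2) with hbad
  have hsep : 8 * (a : ℝ) ^ 2 * ℓ ^ (4 * M0) * Y ^ 2 < (T : ℝ) ^ 2 := by
    have h1 : 8 * (a : ℝ) ^ 2 ≤ ℓ ^ 3 := by
      have h2 : 2 * (a : ℝ) ≤ ℓ := by linarith
      have h3 : (2 * (a : ℝ)) ^ 2 ≤ ℓ ^ 2 := pow_le_pow_left₀ (by positivity) h2 2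
      have h4 : 2 * ℓ ^ 2 ≤ ℓ * ℓ ^ 2 := mul_le_mul_of_nonneg_right (by linarith) (by positivity)
      nlinarith
    have h5 : ℓ ^ 3 * ℓ ^ (4 * M0) ≤ Y := by
      rw [← pow_add]
      exact (pow_le_pow_right₀ hℓ1' (by omega)).trans hℓJ
    have hY2 : 2 ≤ Y := by
      have := le_self_pow₀ hℓ1' (by omega : A + 2 ≠ 0)
      linarith
    calc 8 * (a : ℝ) ^ 2 * ℓ ^ (4 * M0) * Y ^ 2 ≤ ℓ ^ 3 * ℓ ^ (4 * M0) * Y ^ 2 := by gcongr
      _ ≤ Y * Y ^ 2 := by gcongr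
      _ = Y ^ 3 := by ring
      _ < Y ^ 9 := pow_lt_pow_right₀ (by linarith) (by norm_num)
      _ ≤ _ := hT9
  have hbs := bad_sum a N T B' K' M0 E α ℓ Y bad ha hℓ1' hℓ hY1 hNpos (by linarith) hT1 hsep hB'
    (fun q h1 h2 => hα q h1 h2) (fun D hD => by
      rw [hbad, mem_filter] at hD
      exact ⟨hD.1, hDY D hD.1, hD.2⟩)
  -- the good moduli
  have hgood : ∀ D ∈ QQ N, D ∉ bad → (D : ℝ) * WD a T D α ≤
      2 * T + 800 * (T : ℝ) ^ 2 * (1 + ℓ) / ℓ ^ M0 * (1 / D) := by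
    intro D hD hDb
    have hD0 : (0 : ℝ) < D := by linarith [hD1 D hD]
    have hV0 : (0 : ℝ) < ((T / D + 1 : ℕ) : ℝ) := by positivity
    have h1 := hW1 (T / D + 1) (ℓ ^ M0) (2 * a * (D : ℝ) ^ 2 * α) (Nat.le_add_left 1 _)
      (one_le_pow₀ hℓ1') (hLV D hD) (by
        intro q hq hqL
        by_contra hlt
        push Not at hlt
        apply hDb
        rw [hbad, mem_filter]
        refine ⟨hD, q, hq, hqL, hlt.trans ?_⟩
        have hTp : (0 : ℝ) < (T : ℝ) ^ 2 := by positivity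
        rw [div_le_div_iff₀ (by positivity) hTp]
        have h2 : (T : ℝ) ≤ D * ((T / D + 1 : ℕ) : ℝ) := by
          have := hV1 D hD
          rw [div_le_iff₀ hD0] at this
          linarith
        have h3 : (T : ℝ) ^ 2 ≤ (D * ((T / D + 1 : ℕ) : ℝ)) ^ 2 :=
          pow_le_pow_left₀ (Nat.cast_nonneg _) h2 2
        calc (ℓ ^ M0) ^ 2 * (T : ℝ) ^ 2 ≤ (ℓ ^ M0) ^ 2 * (D * ((T / D + 1 : ℕ) : ℝ)) ^ 2 :=
              mul_le_mul_of_nonneg_left h3 (by positivity)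
          _ = _ := by ring)
    have h2 : WD a T D α ≤ ((T / D + 1 : ℕ) : ℝ) +
        2 * (100 * ((T / D + 1 : ℕ) : ℝ) ^ 2 * (1 + ℓ) / ℓ ^ M0) := by
      unfold WD
      have e : ∀ j ∈ Icc 1 (T / D + 1), mn (T / D + 1) (2 * (a : ℤ) * (D : ℝ) ^ 2 * j * α) =
          mn (T / D + 1) (j * (2 * a * (D : ℝ) ^ 2 * α)) := by
        intro j _
        congr 1
        push_cast
        ring
      rw [sum_congr rfl e]
      have h3 : 100 * ((T / D + 1 : ℕ) : ℝ) ^ 2 * (1 + Real.log ((T / D + 1 : ℕ) : ℝ)) / ℓ ^ M0 ≤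
          100 * ((T / D + 1 : ℕ) : ℝ) ^ 2 * (1 + ℓ) / ℓ ^ M0 := by
        have := hlogV D hD
        gcongr
      linarith
    calc (D : ℝ) * WD a T D α ≤ D * (((T / D + 1 : ℕ) : ℝ) +
        2 * (100 * ((T / D + 1 : ℕ) : ℝ) ^ 2 * (1 + ℓ) / ℓ ^ M0)) :=
          mul_le_mul_of_nonneg_left h2 hD0.le
      _ ≤ D * (2 * (T / D) + 2 * (100 * (2 * (T / D)) ^ 2 * (1 + ℓ) / ℓ ^ M0)) := by
          have := hV2 D hD
          gcongr
      _ = _ := by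
          field_simp
          ring
  have hbadb : ∀ D ∈ bad, (D : ℝ) * WD a T D α ≤ 12 * (T : ℝ) ^ 2 * (1 / D) := by
    intro D hDb
    have hD := (mem_filter.1 hDb).1
    have hD0 : (0 : ℝ) < D := by linarith [hD1 D hD]
    calc (D : ℝ) * WD a T D α ≤ D * (3 * ((T / D + 1 : ℕ) : ℝ) ^ 2) :=
          mul_le_mul_of_nonneg_left (WD_triv _ _ _ _) hD0.le
      _ ≤ D * (3 * (2 * (T / D)) ^ 2) := by
          have := hV2 D hD
          gcongr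
      _ = _ := by
          field_simp
          ring
  -- assembly
  have hsplit : ∑ D ∈ QQ N, (D : ℝ) * WD a T D α ≤
      ∑ D ∈ QQ N, (2 * T + 800 * (T : ℝ) ^ 2 * (1 + ℓ) / ℓ ^ M0 * (1 / D)) +
      ∑ D ∈ bad, 12 * (T : ℝ) ^ 2 * (1 / D) := by
    have h1 : ∑ D ∈ bad, 12 * (T : ℝ) ^ 2 * (1 / (D : ℝ)) =
        ∑ D ∈ QQ N, if D ∈ bad then 12 * (T : ℝ) ^ 2 * (1 / (D : ℝ)) else 0 := by
      rw [← sum_filter]
      congr 1
      ext D
      exact ⟨fun h => mem_filter.2 ⟨(mem_filter.1 h).1, h⟩, fun h => (mem_filter.1 h).2⟩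
    rw [h1, ← sum_add_distrib]
    refine sum_le_sum fun D hD => ?_
    by_cases hDb : D ∈ bad
    · rw [if_pos hDb]
      have h2 : (0 : ℝ) ≤ 2 * T + 800 * (T : ℝ) ^ 2 * (1 + ℓ) / ℓ ^ M0 * (1 / D) := by positivity
      have := hbadb D hDb
      linarith
    · rw [if_neg hDb, add_zero]
      exact hgood D hD hDb
  have hcard : ((QQ N).card : ℝ) ≤ Y := by
    have hsub : QQ N ⊆ Icc 1 ⌊Y⌋₊ := by
      intro D hD
      refine mem_Icc.2 ⟨(mem_QQ.1 hD).1, Nat.le_floor ?_⟩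
      exact (le_self_pow₀ (hD1 D hD) (by norm_num)).trans (hDY D hD)
    have h1 := card_le_card hsub
    rw [Nat.card_Icc, Nat.add_sub_cancel] at h1
    exact (Nat.cast_le.2 h1).trans (Nat.floor_le hY0.le)
  have hsum1 : ∑ D ∈ QQ N, (1 : ℝ) / D ≤ 1 + ℓ := by
    refine le_trans (sum_le_sum_of_subset_of_nonneg (fun D hD => ?_) fun i _ _ => by positivity)
      (sum_inv N)
    have h3 := mem_QQ.1 hD
    exact mem_Icc.2 ⟨h3.1, (Nat.le_self_pow (by norm_num) D).trans h3.2.2⟩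
  have hA0 : (0 : ℝ) < ℓ ^ A := by positivity
  have hNr : (0 : ℝ) < N := by linarith
  have p1 : ∑ D ∈ QQ N, (2 * T + 800 * (T : ℝ) ^ 2 * (1 + ℓ) / ℓ ^ M0 * (1 / (D : ℝ))) ≤
      N / ℓ ^ A / 4 + N / ℓ ^ A / 4 := by
    rw [sum_add_distrib, sum_const, nsmul_eq_mul, ← mul_sum]
    refine add_le_add ?_ ?_
    · have h1 : ((QQ N).card : ℝ) * (2 * T) ≤ Y * (2 * Y ^ 5) := by gcongr
      have h2 : Y * (2 * Y ^ 5) ≤ N / ℓ ^ A / 4 := by
        rw [div_div, le_div_iff₀ (by positivity), ← hY10]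
        have h3 : 8 * ℓ ^ A ≤ Y := by
          refine le_trans ?_ hYℓ
          rw [pow_add]
          have : (8 : ℝ) ≤ ℓ ^ 2 := by nlinarith
          nlinarith
        have h4 : Y ≤ Y ^ 4 := le_self_pow₀ hY1 (by norm_num)
        calc Y * (2 * Y ^ 5) * (ℓ ^ A * 4) = Y ^ 6 * (8 * ℓ ^ A) := by ring
          _ ≤ Y ^ 6 * Y ^ 4 := mul_le_mul_of_nonneg_left (h3.trans h4) (by positivity)
          _ = Y ^ 10 := by ring
      exact h1.trans h2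
    · have h1 : 800 * (T : ℝ) ^ 2 * (1 + ℓ) / ℓ ^ M0 * ∑ D ∈ QQ N, (1 : ℝ) / D ≤
          800 * (N : ℝ) * (1 + ℓ) / ℓ ^ M0 * (1 + ℓ) := by gcongr
      refine h1.trans ?_
      rw [hM0, pow_add, div_mul_eq_mul_div, div_div, div_le_div_iff₀ (by positivity) (by positivity)]
      have h2 : 800 * (1 + ℓ) * (1 + ℓ) * 4 ≤ ℓ ^ 4 := by
        have h3 : 1 + ℓ ≤ 2 * ℓ := by linarith
        have h4 : (1 + ℓ) * (1 + ℓ) ≤ (2 * ℓ) * (2 * ℓ) := mul_le_mul h3 h3 (by positivity) (by positivity)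
        have h5 : (12800 : ℝ) ≤ ℓ * ℓ := by nlinarith
        have h6 : 12800 * (ℓ * ℓ) ≤ (ℓ * ℓ) * (ℓ * ℓ) := mul_le_mul_of_nonneg_right h5 (by positivity)
        nlinarith
      calc 800 * (N : ℝ) * (1 + ℓ) * (1 + ℓ) * (ℓ ^ A * 4) =
          (N * ℓ ^ A) * (800 * (1 + ℓ) * (1 + ℓ) * 4) := by ring
        _ ≤ (N * ℓ ^ A) * ℓ ^ 4 := mul_le_mul_of_nonneg_left h2 (by positivity)
        _ = _ := by ring
  have p2 : ∑ D ∈ bad, 12 * (T : ℝ) ^ 2 * (1 / (D : ℝ)) ≤ N / ℓ ^ A / 4 := by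
    rw [← mul_sum]
    have h1 : 12 * (T : ℝ) ^ 2 * ∑ D ∈ bad, (1 : ℝ) / D ≤
        12 * (N : ℝ) * (ℓ ^ M0 * ((1 / ℓ ^ E) * (1 + Real.log N))) := by gcongr
    refine h1.trans ?_
    rw [← hℓ]
    have e1 : ℓ ^ E = ℓ ^ M0 * (ℓ ^ A * ℓ ^ 2) := by rw [hE, ← pow_add, ← pow_add]; congr 1
    have e2 : 12 * (N : ℝ) * (ℓ ^ M0 * ((1 / ℓ ^ E) * (1 + ℓ))) =
        12 * N * (1 + ℓ) / (ℓ ^ A * ℓ ^ 2) := by
      rw [e1]
      field_simp
    rw [e2, div_div, div_le_div_iff₀ (by positivity) (by positivity)]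
    have h2 : 12 * (1 + ℓ) * 4 ≤ ℓ ^ 2 := by nlinarith
    calc 12 * (N : ℝ) * (1 + ℓ) * (ℓ ^ A * 4) = (N * ℓ ^ A) * (12 * (1 + ℓ) * 4) := by ring
      _ ≤ (N * ℓ ^ A) * ℓ ^ 2 := mul_le_mul_of_nonneg_left h2 (by positivity)
      _ = _ := by ring
  have hfin : (0 : ℝ) ≤ N / ℓ ^ A := by positivity
  linarith

end Pool.Agent.L0h61.CL
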