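import Mathlib
import Pool.Agent.L0h42.CL.Stm

set_option autoImplicit false

/-! PV: Parseval's identity in residue classes. -/

namespace Pool.Agent.L0h61.CL.Pv
open Finset
open Pool.Agent.L0h42.CL
open Pool.Agent.H807R2.Dav

/-! ### continuity and periodicity -/

theorem nd_cont : Continuous nd := by
  have h : nd = fun x : ℝ => ‖((x : ℝ) : UnitAddCircle)‖ := by
    funext x
    exact (UnitAddCircle.norm_eq (x := x)).symm
  rw [h]
  exact continuous_norm.comp (AddCircle.continuous_mk' 1)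

theorem mn_cont (V : ℕ) : Continuous (mn V) := by
  unfold mn
  refine continuous_const.div (continuous_const.max (continuous_const.mul nd_cont)) fun x => ?_
  exact (lt_of_lt_of_le one_pos (le_max_left _ _)).ne'

theorem mn_nonneg (V : ℕ) (x : ℝ) : 0 ≤ mn V x :=
  div_nonneg (Nat.cast_nonneg _) (le_trans zero_le_one (le_max_left _ _))

theorem WD_cont (a0 : ℤ) (T D : ℕ) : Continuous (WD a0 T D) := by
  unfold WD
  refine continuous_const.add (continuous_const.mul (continuous_finsetSum _ fun j _ => ?_))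
  exact (mn_cont _).comp (continuous_const.mul continuous_id)

theorem WD_nonneg (a0 : ℤ) (T D : ℕ) (α : ℝ) : 0 ≤ WD a0 T D α := by
  unfold WD
  have := Finset.sum_nonneg (s := Icc 1 (T / D + 1))
    (f := fun j : ℕ => mn (T / D + 1) (2 * a0 * (D : ℝ) ^ 2 * j * α)) fun j _ => mn_nonneg _ _
  positivity

theorem nd_add_int (x : ℝ) (m : ℤ) : nd (x + m) = nd x := by
  unfold nd
  rw [round_add_intCast]
  push_cast
  congr 1
  ring

theorem mn_add_int (V : ℕ) (x : ℝ) (m : ℤ) : mn V (x + m) = mn V x := by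
  unfold mn
  rw [nd_add_int]

theorem WD_per (a0 : ℤ) (T D : ℕ) (hD : 1 ≤ D) (α : ℝ) :
    WD a0 T D (α + 1 / D) = WD a0 T D α := by
  have hD0 : (D : ℝ) ≠ 0 := by
    have : (0 : ℝ) < D := by exact_mod_cast hD
    exact this.ne'
  unfold WD
  congr 2
  refine sum_congr rfl fun j _ => ?_
  have : 2 * (a0 : ℝ) * (D : ℝ) ^ 2 * j * (α + 1 / D) =
      2 * a0 * (D : ℝ) ^ 2 * j * α + ((2 * a0 * D * j : ℤ) : ℝ) := by
    push_cast
    field_simp
  rw [this, mn_add_int]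

theorem WD_per1 (a0 : ℤ) (T D : ℕ) (α : ℝ) : WD a0 T D (α + 1) = WD a0 T D α := by
  unfold WD
  congr 2
  refine sum_congr rfl fun j _ => ?_
  have : 2 * (a0 : ℝ) * (D : ℝ) ^ 2 * j * (α + 1) =
      2 * a0 * (D : ℝ) ^ 2 * j * α + ((2 * a0 * D ^ 2 * j : ℤ) : ℝ) := by
    push_cast
    ring
  rw [this, mn_add_int]

theorem ee_conj (x : ℝ) : (starRingEnd ℂ) (ee x) = ee (-x) := by
  unfold ee
  rw [← Complex.exp_conj]
  congr 1
  have h2 : (starRingEnd ℂ) 2 = 2 := map_ofNat (starRingEnd ℂ) 2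
  simp [Complex.conj_ofReal, h2]

theorem ee_integral (m : ℤ) : ∫ α in (0 : ℝ)..1, ee ((m : ℝ) * α) = if m = 0 then 1 else 0 := by
  by_cases hm : m = 0
  · subst hm
    simp [ee]
  · rw [if_neg hm]
    have hc : (2 * (Real.pi : ℂ) * (m : ℂ) * Complex.I) ≠ 0 := by
      have h1 : (Real.pi : ℂ) ≠ 0 := by exact_mod_cast Real.pi_ne_zero
      have h2 : (m : ℂ) ≠ 0 := by exact_mod_cast hm
      have h3 := Complex.I_ne_zero
      simp [h1, h2, h3]
    have h := integral_exp_mul_complex (a := (0 : ℝ)) (b := 1) hc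
    have e : (fun α : ℝ => ee ((m : ℝ) * α)) =
        fun α : ℝ => Complex.exp (2 * (Real.pi : ℂ) * (m : ℂ) * Complex.I * α) := by
      funext α
      unfold ee
      congr 1
      push_cast
      ring
    rw [e, h]
    have h1 : Complex.exp (2 * (Real.pi : ℂ) * (m : ℂ) * Complex.I * ((1 : ℝ) : ℂ)) = 1 := by
      rw [Complex.exp_eq_one_iff]
      exact ⟨m, by push_cast; ring⟩
    rw [h1]
    simp

theorem ee_cont (m : ℝ) : Continuous (fun α : ℝ => ee (m * α)) := by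
  unfold ee
  fun_prop

/-! ### Parseval -/

theorem pars (J : Finset ℤ) (C : ℤ → ℝ) :
    ∫ α in (0 : ℝ)..1, ‖∑ ν ∈ J, (C ν : ℂ) * ee ((ν : ℝ) * α)‖ ^ 2 = ∑ ν ∈ J, (C ν) ^ 2 := by
  apply Complex.ofReal_injective
  rw [← intervalIntegral.integral_ofReal]
  have e : ∀ α : ℝ, ((‖∑ ν ∈ J, (C ν : ℂ) * ee ((ν : ℝ) * α)‖ ^ 2 : ℝ) : ℂ) =
      ∑ μ ∈ J, ∑ ν ∈ J, ((C μ : ℂ) * (C ν : ℂ)) * ee (((μ - ν : ℤ) : ℝ) * α) := by
    intro α
    push_cast
    rw [← Complex.mul_conj', map_sum, Finset.sum_mul_sum]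
    refine Finset.sum_congr rfl fun μ _ => Finset.sum_congr rfl fun ν _ => ?_
    rw [map_mul, ee_conj, Complex.conj_ofReal]
    have : ((μ : ℝ) - (ν : ℝ)) * α = (μ : ℝ) * α + -((ν : ℝ) * α) := by ring
    rw [this, ee_add]
    ring
  simp_rw [e]
  rw [intervalIntegral.integral_finsetSum]
  · rw [Complex.ofReal_sum]
    refine Finset.sum_congr rfl fun μ hμ => ?_
    rw [intervalIntegral.integral_finsetSum]
    · simp_rw [intervalIntegral.integral_const_mul, ee_integral]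
      rw [Finset.sum_eq_single μ]
      · simp [sq]
      · intro ν _ hν
        rw [if_neg (by omega)]
        simp
      · intro h; exact absurd hμ h
    · intro ν _
      exact ((continuous_const.mul (ee_cont _)).intervalIntegrable _ _)
  · intro μ _
    refine Continuous.intervalIntegrable ?_ _ _
    refine continuous_finsetSum _ fun ν _ => ?_
    exact continuous_const.mul (ee_cont _)

/-- Parseval with repeated frequencies -/
theorem pars2 {ι : Type} (I : Finset ι) (c : ι → ℝ) (m : ι → ℤ) :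
    ∫ α in (0 : ℝ)..1, ‖∑ i ∈ I, (c i : ℂ) * ee ((m i : ℝ) * α)‖ ^ 2 =
      ∑ v ∈ I.image m, (∑ i ∈ I with m i = v, c i) ^ 2 := by
  rw [← pars (I.image m) (fun v => ∑ i ∈ I with m i = v, c i)]
  congr 1
  funext α
  congr 2
  rw [← sum_fiberwise_of_maps_to (s := I) (t := I.image m) (g := m)
    (fun i hi => mem_image_of_mem m hi)]
  refine sum_congr rfl fun v _ => ?_
  rw [Complex.ofReal_sum, sum_mul]
  refine sum_congr rfl fun i hi => ?_
  rw [(mem_filter.1 hi).2]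

/-- the values at some of the frequencies -/
theorem bess {ι : Type} (I : Finset ι) (c : ι → ℝ) (m : ι → ℤ) (X : ℕ) (F : ℕ → ℝ)
    (hF : ∀ a ∈ Icc 1 X, F a = ∑ i ∈ I with m i = (a : ℤ), c i) :
    ∑ a ∈ Icc 1 X, F a ^ 2 ≤ ∫ α in (0 : ℝ)..1, ‖∑ i ∈ I, (c i : ℂ) * ee ((m i : ℝ) * α)‖ ^ 2 := by
  rw [pars2]
  have h1 : ∑ a ∈ Icc 1 X, F a ^ 2 =
      ∑ v ∈ (Icc 1 X).image (fun a : ℕ => (a : ℤ)), (∑ i ∈ I with m i = v, c i) ^ 2 := by
    rw [sum_image (fun a _ b _ h => by exact_mod_cast h)]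
    exact sum_congr rfl fun a ha => by rw [hF a ha]
  rw [h1]
  calc ∑ v ∈ (Icc 1 X).image (fun a : ℕ => (a : ℤ)), (∑ i ∈ I with m i = v, c i) ^ 2
      ≤ ∑ v ∈ (Icc 1 X).image (fun a : ℕ => (a : ℤ)) ∪ I.image m,
          (∑ i ∈ I with m i = v, c i) ^ 2 :=
        sum_le_sum_of_subset_of_nonneg subset_union_left fun _ _ _ => sq_nonneg _
    _ = ∑ v ∈ I.image m, (∑ i ∈ I with m i = v, c i) ^ 2 := by
        symm
        apply sum_subset subset_union_right
        intro v _ hv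
        have : (I.filter fun i => m i = v) = ∅ := by
          rw [filter_eq_empty_iff]
          intro i hi h
          exact hv (h ▸ mem_image_of_mem m hi)
        rw [this]
        simp

/-! ### one pair of classes -/

/-- the part of the exponential sum in a residue class -/
noncomputable def Su (Δ : ℕ → ℝ) (Y D u : ℕ) (α : ℝ) : ℂ :=
  ∑ n ∈ (Icc 1 Y).filter (fun n => n % D = u), ((Δ n : ℝ) : ℂ) * ee (n * α)

theorem Su_cont (Δ : ℕ → ℝ) (Y D u : ℕ) : Continuous (Su Δ Y D u) := by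
  unfold Su
  refine continuous_finsetSum _ fun n _ => ?_
  exact continuous_const.mul (ee_cont _)

theorem pair (hWY : S_WY) (a0 b0 c0 : ℤ) (G : ℕ → ℕ) (T1 T2 T D X Y : ℕ) (Δ : ℕ → ℝ) (τ u : ℕ)
    (hD : 1 ≤ D) (h12 : T1 ≤ T2) (hT : T2 - T1 ≤ T)
    (hG : ∀ t ∈ Ioc T1 T2, (G t : ℤ) = gz a0 b0 t + c0) (hY : ∀ t ∈ Ioc T1 T2, X + G t ≤ Y) :
    ∑ a ∈ Icc 1 X, (∑ t ∈ (Ioc T1 T2).filter (fun t => t % D = τ ∧ (a + G t) % D = u),
      Δ (a + G t)) ^ 2 ≤
      ∫ α in (0 : ℝ)..1, WD a0 T D α * ‖Su Δ Y D u α‖ ^ 2 := by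
  set I1 := (Ioc T1 T2).filter (fun t => t % D = τ) with hI1
  set I2 := (Icc 1 Y).filter (fun n => n % D = u) with hI2
  have h1 := bess (I1 ×ˢ I2) (fun y : ℕ × ℕ => Δ y.2) (fun y : ℕ × ℕ => (y.2 : ℤ) - (G y.1 : ℤ)) X
    (fun a => ∑ t ∈ (Ioc T1 T2).filter (fun t => t % D = τ ∧ (a + G t) % D = u), Δ (a + G t)) (by
      intro a ha
      rw [mem_Icc] at ha
      refine sum_nbij' (fun t => (t, a + G t)) (fun y => y.1) ?_ ?_ ?_ ?_ ?_
      · intro t ht
        rw [mem_filter] at ht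
        have h2 := hY t ht.1
        simp only [mem_filter, mem_product, hI1, hI2, mem_Icc]
        refine ⟨⟨⟨ht.1, ht.2.1⟩, ⟨by omega, by omega⟩, ht.2.2⟩, ?_⟩
        push_cast
        ring
      · intro y hy
        simp only [mem_filter, mem_product, hI1, hI2, mem_Icc] at hy
        rw [mem_filter]
        have h3 : a + G y.1 = y.2 := by omega
        rw [h3]
        exact ⟨hy.1.1.1, hy.1.1.2, hy.1.2.2⟩
      · intro t _
        rfl
      · intro y hy
        simp only [mem_filter, mem_product, hI1, hI2, mem_Icc] at hy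
        have h3 : a + G y.1 = y.2 := by omega
        show (y.1, a + G y.1) = y
        rw [h3]
      · intro t _
        rfl)
  refine h1.trans ?_
  apply intervalIntegral.integral_mono_on zero_le_one
  · refine Continuous.intervalIntegrable ?_ _ _
    refine (Continuous.norm ?_).pow 2
    refine continuous_finsetSum _ fun n _ => ?_
    exact continuous_const.mul (ee_cont _)
  · refine Continuous.intervalIntegrable ?_ _ _
    exact (WD_cont a0 T D).mul ((Su_cont Δ Y D u).norm.pow 2)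
  · intro α _
    have e1 : ∑ i ∈ I1 ×ˢ I2, ((Δ i.2 : ℝ) : ℂ) * ee (((((i.2 : ℤ) - (G i.1 : ℤ)) : ℤ) : ℝ) * α) =
        (∑ t ∈ I1, ee (-((G t : ℝ) * α))) * Su Δ Y D u α := by
      unfold Su
      rw [sum_mul_sum, sum_product]
      refine sum_congr rfl fun t _ => sum_congr rfl fun n _ => ?_
      have : ((((n : ℤ) - (G t : ℤ)) : ℤ) : ℝ) * α = -((G t : ℝ) * α) + n * α := by
        push_cast
        ring
      rw [this, ee_add]
      ring
    have e2 : ‖∑ t ∈ I1, ee (-((G t : ℝ) * α))‖ = ‖∑ t ∈ I1, ee ((gz a0 b0 t : ℝ) * α)‖ := by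
      have e3 : ∑ t ∈ I1, ee (-((G t : ℝ) * α)) =
          (starRingEnd ℂ) (∑ t ∈ I1, ee ((gz a0 b0 t : ℝ) * α) * ee (c0 * α)) := by
        rw [map_sum]
        refine sum_congr rfl fun t ht => ?_
        rw [← ee_add, ee_conj]
        congr 2
        have h3 := hG t (mem_filter.1 ht).1
        have h4 : (G t : ℝ) = (gz a0 b0 t : ℝ) + c0 := by exact_mod_cast h3
        rw [h4]
        ring
      rw [e3, Complex.norm_conj, ← sum_mul, norm_mul, norm_ee, mul_one]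
    rw [e1, norm_mul, e2, mul_pow]
    exact mul_le_mul_of_nonneg_right (hWY a0 b0 T1 T2 T D τ α hD h12 hT) (sq_nonneg _)

/-! ### all classes -/

theorem ee_one_iff (x : ℝ) (h : ee x = 1) : ∃ n : ℤ, x = n := by
  unfold ee at h
  rw [Complex.exp_eq_one_iff] at h
  obtain ⟨n, hn⟩ := h
  refine ⟨n, ?_⟩
  have hc : (2 * (Real.pi : ℂ) * Complex.I) ≠ 0 := by
    have h1 : (Real.pi : ℂ) ≠ 0 := by exact_mod_cast Real.pi_ne_zero
    have h3 := Complex.I_ne_zero
    simp [h1, h3]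
  have h2 : (x : ℂ) = n := by
    apply mul_left_cancel₀ hc
    rw [hn]
    ring
  exact_mod_cast h2

theorem Su_shift (Δ : ℕ → ℝ) (Y D u : ℕ) (hD : 1 ≤ D) (α : ℝ) :
    Su Δ Y D u (α + 1 / D) = ee (u / D) * Su Δ Y D u α := by
  have hD0 : (D : ℝ) ≠ 0 := by
    have : (0 : ℝ) < D := by exact_mod_cast hD
    exact this.ne'
  unfold Su
  rw [mul_sum]
  refine sum_congr rfl fun n hn => ?_
  have h1 : n % D = u := (mem_filter.1 hn).2
  have h2 : (n : ℝ) * (α + 1 / D) = (u : ℝ) / D + n * α + (((n / D : ℕ) : ℤ) : ℝ) := by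
    have h3 : (n : ℝ) = D * ((n / D : ℕ) : ℝ) + u := by
      have := Nat.div_add_mod n D
      rw [h1] at this
      exact_mod_cast this.symm
    have h4 : (n : ℝ) * (1 / D) = ((n / D : ℕ) : ℝ) + (u : ℝ) / D := by
      rw [h3]
      field_simp
    rw [mul_add, h4, Int.cast_natCast]
    ring
  rw [h2, ee_add_int, ee_add]
  ring

theorem Su_per (Δ : ℕ → ℝ) (Y D u : ℕ) (α : ℝ) : Su Δ Y D u (α + 1) = Su Δ Y D u α := by
  unfold Su
  refine sum_congr rfl fun n hn => ?_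
  have h2 : (n : ℝ) * (α + 1) = n * α + ((n : ℤ) : ℝ) := by
    push_cast
    ring
  rw [h2, ee_add_int]

theorem S_eq (Δ : ℕ → ℝ) (Y D : ℕ) (hD : 1 ≤ D) (α : ℝ) :
    ∑ n ∈ Icc 1 Y, ((Δ n : ℝ) : ℂ) * ee (n * α) = ∑ u ∈ range D, Su Δ Y D u α := by
  unfold Su
  exact (sum_fiberwise_of_maps_to (fun n _ => mem_range.2 (Nat.mod_lt _ (by omega))) _).symm

theorem cross (a0 : ℤ) (T D : ℕ) (hD : 1 ≤ D) (Δ : ℕ → ℝ) (Y u v : ℕ) (hu : u < D) (hv : v < D)
    (huv : u ≠ v) :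
    ∫ α in (0 : ℝ)..1, (WD a0 T D α : ℂ) * (Su Δ Y D u α * (starRingEnd ℂ) (Su Δ Y D v α)) = 0 := by
  have hD0 : (0 : ℝ) < D := by exact_mod_cast hD
  set g : ℝ → ℂ := fun α => (WD a0 T D α : ℂ) * (Su Δ Y D u α * (starRingEnd ℂ) (Su Δ Y D v α)) with hg
  have hper : Function.Periodic g 1 := by
    intro α
    simp only [hg]
    rw [WD_per1, Su_per, Su_per]
  have hsh : ∀ α, g (α + 1 / D) = ee ((u : ℝ) / D - (v : ℝ) / D) * g α := by
    intro α
    simp only [hg]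
    rw [WD_per a0 T D hD, Su_shift Δ Y D u hD, Su_shift Δ Y D v hD, map_mul, ee_conj, sub_eq_add_neg,
      ee_add]
    ring
  have h1 : ∫ α in (0 : ℝ)..1, g (α + 1 / D) = ∫ α in (0 : ℝ)..1, g α := by
    rw [intervalIntegral.integral_comp_add_right]
    have := hper.intervalIntegral_add_eq (0 + 1 / (D : ℝ)) 0
    rw [show (1 : ℝ) + 1 / D = 0 + 1 / (D : ℝ) + 1 by ring, this, zero_add]
  simp_rw [hsh] at h1
  rw [intervalIntegral.integral_const_mul] at h1
  have h2 : (ee ((u : ℝ) / D - (v : ℝ) / D) - 1) * ∫ α in (0 : ℝ)..1, g α = 0 := by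
    rw [sub_mul, one_mul, h1, sub_self]
  refine (mul_eq_zero.1 h2).resolve_left ?_
  intro h3
  obtain ⟨n, hn⟩ := ee_one_iff _ (sub_eq_zero.1 h3)
  have h4 : (u : ℝ) - v = n * D := by
    rw [← hn]
    field_simp
  have h5 : (u : ℤ) - v = n * D := by exact_mod_cast h4
  have h6 : (D : ℤ) ∣ (u : ℤ) - v := ⟨n, by rw [h5]; ring⟩
  have h7 := Int.eq_zero_of_abs_lt_dvd h6 (by rw [abs_lt]; constructor <;> omega)
  omega

theorem all (a0 : ℤ) (T D : ℕ) (hD : 1 ≤ D) (Δ : ℕ → ℝ) (Y : ℕ) :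
    ∑ u ∈ range D, ∫ α in (0 : ℝ)..1, WD a0 T D α * ‖Su Δ Y D u α‖ ^ 2 =
      ∫ α in (0 : ℝ)..1, WD a0 T D α * ‖∑ n ∈ Icc 1 Y, ((Δ n : ℝ) : ℂ) * ee (n * α)‖ ^ 2 := by
  have hcont : ∀ u v, Continuous (fun α => (WD a0 T D α : ℂ) *
      (Su Δ Y D u α * (starRingEnd ℂ) (Su Δ Y D v α))) := by
    intro u v
    exact (Complex.continuous_ofReal.comp (WD_cont a0 T D)).mul ((Su_cont Δ Y D u).mul
      (Complex.continuous_conj.comp (Su_cont Δ Y D v)))
  apply Complex.ofReal_injective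
  rw [Complex.ofReal_sum, ← intervalIntegral.integral_ofReal]
  have e : ∀ α : ℝ, ((WD a0 T D α * ‖∑ n ∈ Icc 1 Y, ((Δ n : ℝ) : ℂ) * ee (n * α)‖ ^ 2 : ℝ) : ℂ) =
      ∑ u ∈ range D, ∑ v ∈ range D, (WD a0 T D α : ℂ) *
        (Su Δ Y D u α * (starRingEnd ℂ) (Su Δ Y D v α)) := by
    intro α
    rw [S_eq Δ Y D hD α]
    push_cast
    rw [← Complex.mul_conj', map_sum, sum_mul_sum, mul_sum]
    exact sum_congr rfl fun u _ => by rw [mul_sum]
  simp_rw [e]
  rw [intervalIntegral.integral_finsetSum]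
  · refine sum_congr rfl fun u hu => ?_
    rw [intervalIntegral.integral_finsetSum]
    · rw [sum_eq_single u]
      · rw [← intervalIntegral.integral_ofReal]
        congr 1
        funext α
        rw [Complex.mul_conj']
        push_cast
        rfl
      · intro v hv hvu
        exact cross a0 T D hD Δ Y u v (mem_range.1 hu) (mem_range.1 hv) hvu.symm
      · intro h
        exact absurd hu h
    · intro v _
      exact (hcont u v).intervalIntegrable _ _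
  · intro u _
    refine Continuous.intervalIntegrable ?_ _ _
    exact continuous_finsetSum _ fun v _ => hcont u v

end Pool.Agent.L0h61.CL.Pv

namespace Pool.Agent.L0h61.CL
open Finset
open Pool.Agent.L0h42.CL
open Pool.Agent.H807R2.Dav

theorem t_PV (hWY : S_WY) : S_PV := by
  intro a0 b0 c0 G T1 T2 T D X Y M Δ P hD h12 hT hG hY hP hM
  have hnn : ∀ u, 0 ≤ ∫ α in (0 : ℝ)..1, WD a0 T D α * ‖Pv.Su Δ Y D u α‖ ^ 2 := by
    intro u
    apply intervalIntegral.integral_nonneg zero_le_one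
    intro α _
    exact mul_nonneg (Pv.WD_nonneg a0 T D α) (sq_nonneg _)
  calc ∑ y ∈ P, ∑ a ∈ Icc 1 X, (∑ t ∈ (Ioc T1 T2).filter
        (fun t => t % D = y.1 ∧ (a + G t) % D = y.2), Δ (a + G t)) ^ 2
      ≤ ∑ y ∈ P, ∫ α in (0 : ℝ)..1, WD a0 T D α * ‖Pv.Su Δ Y D y.2 α‖ ^ 2 :=
        sum_le_sum fun y _ => Pv.pair hWY a0 b0 c0 G T1 T2 T D X Y Δ y.1 y.2 hD h12 hT hG hY
    _ = ∑ u ∈ range D, ∑ y ∈ P with y.2 = u,
          ∫ α in (0 : ℝ)..1, WD a0 T D α * ‖Pv.Su Δ Y D y.2 α‖ ^ 2 :=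
        (sum_fiberwise_of_maps_to (fun y hy => (mem_product.1 (hP hy)).2) _).symm
    _ = ∑ u ∈ range D, ((P.filter (fun y => y.2 = u)).card : ℝ) *
          ∫ α in (0 : ℝ)..1, WD a0 T D α * ‖Pv.Su Δ Y D u α‖ ^ 2 := by
        refine sum_congr rfl fun u _ => ?_
        rw [← nsmul_eq_mul, ← sum_const]
        exact sum_congr rfl fun y hy => by rw [(mem_filter.1 hy).2]
    _ ≤ ∑ u ∈ range D, (M : ℝ) *
          ∫ α in (0 : ℝ)..1, WD a0 T D α * ‖Pv.Su Δ Y D u α‖ ^ 2 :=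
        sum_le_sum fun u _ => mul_le_mul_of_nonneg_right (by exact_mod_cast hM u) (hnn u)
    _ = M * ∫ α in (0 : ℝ)..1, WD a0 T D α * ‖∑ n ∈ Icc 1 Y, ((Δ n : ℝ) : ℂ) * ee (n * α)‖ ^ 2 := by
        rw [← mul_sum, Pv.all a0 T D hD Δ Y]

end Pool.Agent.L0h61.CL
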